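import Pool.Agent.Y739.EX.TypeGraph

/-!
# Odd cycles in shift graphs (helper739)
-/

set_option autoImplicit false

universe u

namespace Pool.Agent.Y739.EX

open Pool.Agent.H709Exc SimpleGraph

/-- The shift graph on `b`-tuples of elements of `A`. -/
abbrev shiftGraph (b : ℕ) (A : Type u) [LinearOrder A] : SimpleGraph (Fin b → A) :=
  typeGraph (Fin.castSucc : Fin b → Fin (b + 1)) Fin.succ A

/-- a forward step -/
def Fwd {b : ℕ} (x y : Fin b → ℕ) : Prop :=
  ∃ a : Fin (b + 1) → ℕ, StrictMono a ∧ x = a ∘ Fin.castSucc ∧ y = a ∘ Fin.succ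

theorem adj_iff {b : ℕ} {x y : Fin b → ℕ} :
    (shiftGraph b ℕ).Adj x y ↔ x ≠ y ∧ (Fwd x y ∨ Fwd y x) := by
  constructor
  · rintro ⟨hne, a, ha, ⟨h1, h2⟩ | ⟨h1, h2⟩⟩
    · exact ⟨hne, Or.inl ⟨a, ha, h1, h2⟩⟩
    · exact ⟨hne, Or.inr ⟨a, ha, h2, h1⟩⟩
  · rintro ⟨hne, ⟨a, ha, h1, h2⟩ | ⟨a, ha, h1, h2⟩⟩
    · exact ⟨hne, a, ha, Or.inl ⟨h1, h2⟩⟩
    · exact ⟨hne, a, ha, Or.inr ⟨h2, h1⟩⟩

theorem Fwd.lt {b : ℕ} {x y : Fin (b + 1) → ℕ} (h : Fwd x y) : x 0 < y 0 := by
  obtain ⟨a, ha, rfl, rfl⟩ := h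
  exact ha (Fin.castSucc_lt_succ)

theorem Fwd.eq {b : ℕ} {x y : Fin (b + 1) → ℕ} (h : Fwd x y) :
    x ∘ Fin.succ = y ∘ Fin.castSucc := by
  obtain ⟨a, ha, rfl, rfl⟩ := h
  funext t
  show a (Fin.castSucc (Fin.succ t)) = a (Fin.succ (Fin.castSucc t))
  rw [Fin.succ_castSucc]

theorem Fwd.adj {b : ℕ} {x y : Fin (b + 2) → ℕ} (h : Fwd x y) :
    (shiftGraph (b + 1) ℕ).Adj (x ∘ Fin.castSucc) (y ∘ Fin.castSucc) := by
  have hlt := h.lt
  obtain ⟨a, ha, rfl, rfl⟩ := h
  rw [adj_iff]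
  refine ⟨fun h' => hlt.ne (congrFun h' 0), Or.inl ⟨a ∘ Fin.castSucc, ?_, rfl, ?_⟩⟩
  · intro s t hst
    exact ha (Fin.castSucc_lt_castSucc_iff.2 hst)
  · funext t
    show a (Fin.succ (Fin.castSucc t)) = a (Fin.castSucc (Fin.succ t))
    rw [Fin.succ_castSucc]

theorem adj_castSucc {b : ℕ} {x y : Fin (b + 2) → ℕ} (h : (shiftGraph (b + 2) ℕ).Adj x y) :
    (shiftGraph (b + 1) ℕ).Adj (x ∘ Fin.castSucc) (y ∘ Fin.castSucc) := by
  rcases (adj_iff.1 h).2 with h | h
  · exact h.adj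
  · exact h.adj.symm

/-- There is no closed walk of odd length less than `2 b + 1` in the shift graph on `b`-tuples. -/
theorem no_odd_walk : ∀ (b L : ℕ), Odd L → L < 2 * b + 1 → ∀ w : ℕ → (Fin b → ℕ),
    (∀ j, w (j + L) = w j) → ¬ ∀ j, (shiftGraph b ℕ).Adj (w j) (w (j + 1)) := by
  intro b
  induction b with
  | zero =>
    intro L hL hL1
    obtain ⟨m, rfl⟩ := hL
    omega
  | succ b ih =>
    intro L hL hL1 w hw hadj
    rcases Nat.lt_or_ge L 3 with h3 | h3
    · obtain ⟨m, rfl⟩ := hL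
      have hm : m = 0 := by omega
      subst hm
      exact (hadj 0).ne (hw 0).symm
    obtain ⟨b, rfl⟩ : ∃ b', b = b' + 1 := ⟨b - 1, by omega⟩
    -- a vertex with minimal first coordinate
    obtain ⟨i0, hi0⟩ : ∃ i, ∀ j, w i 0 ≤ w j 0 := by
      have hne : (Set.range fun j => w j 0).Nonempty := ⟨_, 0, rfl⟩
      obtain ⟨i, hi⟩ := Nat.sInf_mem hne
      exact ⟨i, fun j => by
        have h1 : w i 0 = sInf (Set.range fun j => w j 0) := hi
        rw [h1]
        exact Nat.sInf_le ⟨j, rfl⟩⟩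
    obtain ⟨i, hi1⟩ : ∃ i, w (i + 1) = w i0 := ⟨i0 + L - 1, by
      rw [show i0 + L - 1 + 1 = i0 + L by omega]
      exact hw i0⟩
    have hmin : ∀ j, w (i + 1) 0 ≤ w j 0 := by rw [hi1]; exact hi0
    have e1 : w (i + 1) ∘ Fin.succ = w (i + 2) ∘ Fin.castSucc := by
      rcases (adj_iff.1 (hadj (i + 1))).2 with h | h
      · exact h.eq
      · exact absurd h.lt (not_lt.2 (hmin _))
    have e2 : w (i + 1) ∘ Fin.succ = w i ∘ Fin.castSucc := by
      rcases (adj_iff.1 (hadj i)).2 with h | h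
      · exact absurd h.lt (not_lt.2 (hmin _))
      · exact h.eq
    obtain ⟨m, hm⟩ : ∃ m, L = m + 2 := ⟨L - 2, by omega⟩
    have hm0 : 0 < m := by omega
    have hmo : Odd m := by
      obtain ⟨t, ht⟩ := hL
      exact ⟨t - 1, by omega⟩
    refine ih m hmo (by omega) (fun j => w (i + 2 + j % m) ∘ Fin.castSucc) (fun j => by
      simp only [Nat.add_mod_right]) ?_
    intro j
    show (shiftGraph (b + 1) ℕ).Adj (w (i + 2 + j % m) ∘ Fin.castSucc)
      (w (i + 2 + (j + 1) % m) ∘ Fin.castSucc)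
    have hjm := Nat.mod_lt j hm0
    by_cases hc : j % m + 1 = m
    · have e3 : (j + 1) % m = 0 := by
        rw [Nat.add_mod]
        rcases Nat.lt_or_ge 1 m with h1 | h1
        · rw [Nat.mod_eq_of_lt h1, hc, Nat.mod_self]
        · have : m = 1 := by omega
          subst this
          simp [Nat.mod_one]
      have e4 : w (i + 2 + j % m + 1) = w i := by
        rw [show i + 2 + j % m + 1 = i + L by omega]
        exact hw i
      rw [e3]
      show (shiftGraph (b + 1) ℕ).Adj (w (i + 2 + j % m) ∘ Fin.castSucc)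
        (w (i + 2) ∘ Fin.castSucc)
      have e5 := adj_castSucc (hadj (i + 2 + j % m))
      rw [e4, ← e2, e1] at e5
      exact e5
    · have e3 : (j + 1) % m = j % m + 1 := by
        rw [Nat.add_mod]
        have h1 : 1 < m := by omega
        rw [Nat.mod_eq_of_lt h1, Nat.mod_eq_of_lt (by omega)]
      rw [e3, ← Nat.add_assoc]
      exact adj_castSucc (hadj _)

/-- The shift graph on `b`-tuples contains no odd cycle shorter than `2 b + 1`. -/
theorem cycle_not_contained {a b : ℕ} (ha : 1 ≤ a) (hab : a < b) :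
    ¬ (cycleGraph (2 * a + 1)).IsContained (shiftGraph b ℕ) := by
  rintro ⟨f⟩
  obtain ⟨a, rfl⟩ : ∃ a', a = a' + 1 := ⟨a - 1, by omega⟩
  refine no_odd_walk b (2 * (a + 1) + 1) ⟨a + 1, rfl⟩ (by omega)
    (fun j => f (Fin.ofNat (2 * (a + 1) + 1) j)) (fun j => ?_) (fun j => ?_)
  · congr 1
    ext
    simp [Fin.ofNat]
  · apply f.toHom.map_adj
    rw [cycleGraph_adj']
    right
    have h1 : (Fin.ofNat (2 * (a + 1) + 1) (j + 1)) =
        Fin.ofNat (2 * (a + 1) + 1) j + 1 := by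
      ext
      simp [Fin.ofNat, Fin.val_add]
    rw [h1, add_sub_cancel_left]
    simp

/-- skipping `b` -/
def sk (b m : ℕ) : ℕ := if m < b then m else m + 1

theorem sk_lt {b m m' : ℕ} (h : m < m') : sk b m < sk b m' := by
  unfold sk
  split_ifs <;> omega

/-- the vertices of the cycle -/
def cyc (b i : ℕ) (t : Fin b) : ℕ := if i ≤ b + 1 then i + t else sk b (2 * b + 1 - i + t)

theorem cyc_fwd {b i : ℕ} (hi : i ≤ b) : Fwd (cyc b i) (cyc b (i + 1)) := by
  refine ⟨fun s => i + s, ?_, ?_, ?_⟩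
  · intro s t hst
    have : (s : ℕ) < t := hst
    show i + (s : ℕ) < i + (t : ℕ)
    omega
  · funext t
    unfold cyc
    rw [if_pos (by omega)]
    rfl
  · funext t
    unfold cyc
    rw [if_pos (by omega)]
    show i + 1 + (t : ℕ) = i + ((t : ℕ) + 1)
    omega

theorem cyc_bwd {b i : ℕ} (h1 : b + 1 ≤ i) (h2 : i ≤ 2 * b) :
    Fwd (cyc b (i + 1)) (cyc b i) := by
  refine ⟨fun s => sk b (2 * b - i + s), ?_, ?_, ?_⟩
  · intro s t hst
    have : (s : ℕ) < t := hst
    exact sk_lt (by omega)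
  · funext t
    unfold cyc
    rw [if_neg (by omega)]
    show sk b (2 * b + 1 - (i + 1) + t) = sk b (2 * b - i + (t : ℕ))
    congr 1
    omega
  · funext t
    unfold cyc
    show _ = sk b (2 * b - i + ((t : ℕ) + 1))
    split_ifs with h
    · have : i = b + 1 := by omega
      subst this
      unfold sk
      rw [if_neg (by omega)]
      omega
    · congr 1
      omega

theorem cyc_last (b : ℕ) : cyc b (2 * b + 1) = cyc b 0 := by
  funext t
  have ht := t.2
  unfold cyc sk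
  rcases Nat.eq_zero_or_pos b with rfl | hb
  · exact t.elim0
  · rw [if_neg (by omega), if_pos (by omega), if_pos (by omega)]
    omega

theorem cyc_inj {b : ℕ} {i j : ℕ} (hi : i ≤ 2 * (b + 1)) (hj : j ≤ 2 * (b + 1))
    (h : cyc (b + 1) i = cyc (b + 1) j) : i = j := by
  have h0 := congrFun h 0
  have h1 := congrFun h (Fin.last b)
  unfold cyc sk at h0 h1
  simp only [Fin.val_zero, Fin.val_last] at h0 h1
  split_ifs at h0 h1 <;> omega

theorem cyc_adj {b i : ℕ} (hi : i ≤ 2 * (b + 1)) :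
    (shiftGraph (b + 1) ℕ).Adj (cyc (b + 1) i) (cyc (b + 1) (i + 1)) := by
  rw [adj_iff]
  constructor
  · intro h
    rcases Nat.lt_or_ge i (2 * (b + 1)) with h1 | h1
    · have := cyc_inj hi (by omega) h
      omega
    · have h2 : i = 2 * (b + 1) := by omega
      subst h2
      rw [cyc_last] at h
      have := cyc_inj hi (by omega) h
      omega
  · rcases Nat.lt_or_ge i (b + 2) with h1 | h1
    · exact Or.inl (cyc_fwd (by omega))
    · exact Or.inr (cyc_bwd (by omega) hi)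

/-- The shift graph on `b`-tuples, `b ≥ 1`, contains a cycle of length `2 b + 1`. -/
theorem cycle_contained {b : ℕ} (hb : 1 ≤ b) :
    (cycleGraph (2 * b + 1)).IsContained (shiftGraph b ℕ) := by
  obtain ⟨b, rfl⟩ : ∃ b', b = b' + 1 := ⟨b - 1, by omega⟩
  have hinj : Function.Injective fun i : Fin (2 * (b + 1) + 1) => cyc (b + 1) i := by
    intro i j h
    exact Fin.ext (cyc_inj (by omega) (by omega) h)
  have key : ∀ u v : Fin (2 * (b + 1) + 1), (v - u).val = 1 →
      (shiftGraph (b + 1) ℕ).Adj (cyc (b + 1) u) (cyc (b + 1) v) := by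
    intro u v h
    have hu := u.2
    have hv := v.2
    rw [Fin.sub_def] at h
    simp only at h
    have h2 : (v : ℕ) = u + 1 ∨ ((u : ℕ) = 2 * (b + 1) ∧ (v : ℕ) = 0) := by
      rcases Nat.lt_or_ge (2 * (b + 1) + 1 - u + v) (2 * (b + 1) + 1) with h3 | h3
      · rw [Nat.mod_eq_of_lt h3] at h
        omega
      · rw [Nat.mod_eq_sub_mod h3, Nat.mod_eq_of_lt (by omega)] at h
        omega
    rcases h2 with h2 | ⟨h2, h3⟩
    · rw [h2]
      exact cyc_adj (by omega)
    · have h4 := cyc_adj (b := b) (i := u) (by omega)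
      rw [h2, cyc_last] at h4
      rw [h2, h3]
      exact h4
  refine ⟨⟨⟨fun i => cyc (b + 1) i, ?_⟩, hinj⟩⟩
  intro u v h
  rw [cycleGraph_adj'] at h
  rcases h with h | h
  · exact (key v u h).symm
  · exact key u v h

end Pool.Agent.Y739.EX
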