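import Pool.Agent.H330.EndHom
import Pool.Agent.H709Exc.Defs

/-!
# Graphs of one order type and countable colourings (helper739)
-/

set_option autoImplicit false

open Cardinal

universe u

namespace Pool.Agent.Y739.EX

open Pool.Agent.H709Exc

/-- The Erdős–Rado theorem for countably many colours, finite exponents and countable homogeneous
sets, in a qualitative form. -/
theorem er (n : ℕ) : ∃ (A : Type u) (_ : LinearOrder A) (_ : WellFoundedLT A),
    ∀ f : Finset A → ℕ, ∃ (H : Set A) (z : ℕ), H.Infinite ∧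
      ∀ s : Finset A, (s : Set A) ⊆ H → s.card = n → f s = z := by
  classical
  induction n with
  | zero =>
    refine ⟨ULift.{u} ℕ, inferInstance, inferInstance, fun f => ⟨Set.univ, f ∅, ?_, ?_⟩⟩
    · exact Set.infinite_univ
    · intro s _ hs
      rw [Finset.card_eq_zero.1 hs]
  | succ n ih =>
    obtain ⟨W, _, _, hW⟩ := ih
    let c : Cardinal.{u} := Order.succ
      (Cardinal.sum (fun w : W => #(Finset (Set.Iio w) → ULift.{u} ℕ)))
    refine ⟨c.ord.ToType, inferInstance, inferInstance, fun f => ?_⟩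
    obtain ⟨p, x, hx, hp, hxp⟩ := Pool.Agent.H330.end_homog (W := W)
      (fun s : Finset c.ord.ToType => (⟨f s⟩ : ULift.{u} ℕ)) (by
        rw [Cardinal.mk_ord_toType]
        exact Order.lt_succ _)
    obtain ⟨H, z, hH, hz⟩ := hW (fun s => f (insert p (s.image x)))
    refine ⟨x '' H, z, hH.image hx.injOn, ?_⟩
    intro t ht htn
    obtain ⟨t', ht', rfl⟩ : ∃ t' : Finset W, (t' : Set W) ⊆ H ∧ t'.image x = t := by
      obtain ⟨t', h1, h2⟩ := Finset.subset_set_image_iff.1 ht
      exact ⟨t', h1, h2⟩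
    rw [Finset.card_image_of_injective _ hx] at htn
    have hne : t'.Nonempty := Finset.card_pos.1 (by omega)
    set w := t'.max' hne with hw
    have hwt : w ∈ t' := t'.max'_mem hne
    have h1 := congrArg ULift.down (hxp w (t'.erase w) (fun v hv =>
      lt_of_le_of_ne (t'.le_max' v (Finset.mem_of_mem_erase hv)) (Finset.ne_of_mem_erase hv)))
    have h2 : insert (x w) ((t'.erase w).image x) = t'.image x := by
      rw [← Finset.image_insert, Finset.insert_erase hwt]
    have h3 := hz (t'.erase w) (fun v hv => ht' (Finset.mem_of_mem_erase hv)) (by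
      rw [Finset.card_erase_of_mem hwt, htn]; rfl)
    rw [← h2]
    exact h1.trans h3

/-- An increasing sequence in an infinite subset of a well-order. -/
theorem exists_increasing {X : Type u} [LinearOrder X] [WellFoundedLT X] (H : Set X)
    (hinf : H.Infinite) : ∃ s : ℕ → X, (∀ n, s n ∈ H) ∧ StrictMono s := by
  haveI : Infinite H := Set.infinite_coe_iff.2 hinf
  obtain ⟨t⟩ : Nonempty (ℕ ↪ H) := ⟨Infinite.natEmbedding H⟩
  obtain ⟨φ, hφ | hφ⟩ := exists_increasing_or_nonincreasing_subseq (· < ·) (fun n => (t n : H))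
  · exact ⟨fun n => (t (φ n)).1, fun n => (t (φ n)).2, fun m n hmn => hφ m n hmn⟩
  · exfalso
    have h1 : ∀ m n, m < n → (t (φ n) : H) < t (φ m) := by
      intro m n hmn
      rcases lt_trichotomy (t (φ m)) (t (φ n)) with h | h | h
      · exact absurd h (hφ m n hmn)
      · exact absurd (φ.strictMono hmn).ne (fun h' => h' (t.injective h))
      · exact h
    have hwf := wellFounded_lt (α := H)
    exact (RelEmbedding.wellFounded_iff_isEmpty.1 hwf).false
      (RelEmbedding.natGT (fun n => (t (φ n) : H)) (fun n => h1 n (n+1) (Nat.lt_succ_self n)))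

/-- The graph on the `r`-tuples of elements of `A` in which two tuples are adjacent if they are
`(a (p 1), …, a (p r))` and `(a (q 1), …, a (q r))` for some increasing `n`-tuple `a`. -/
def typeGraph {r n : ℕ} (p q : Fin r → Fin n) (A : Type u) [LinearOrder A] :
    SimpleGraph (Fin r → A) where
  Adj x y := x ≠ y ∧ ∃ a : Fin n → A, StrictMono a ∧
    ((x = a ∘ p ∧ y = a ∘ q) ∨ (x = a ∘ q ∧ y = a ∘ p))
  symm := ⟨fun _ _ h => ⟨h.1.symm, by
    obtain ⟨-, a, ha, h | h⟩ := h
    · exact ⟨a, ha, Or.inr ⟨h.2, h.1⟩⟩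
    · exact ⟨a, ha, Or.inl ⟨h.2, h.1⟩⟩⟩⟩
  loopless := ⟨fun _ h => h.1 rfl⟩

/-- A finite graph contained in a type graph is contained in the one over `ℕ`. -/
theorem contained_nat {r n : ℕ} (p q : Fin r → Fin n) {A : Type u} [LinearOrder A] {k : ℕ}
    (G : SimpleGraph (Fin k)) (h : G.IsContained (typeGraph p q A)) :
    G.IsContained (typeGraph p q ℕ) := by
  classical
  obtain ⟨f⟩ := h
  have h1 : ∀ e : Fin k × Fin k, ∃ F : Finset A, G.Adj e.1 e.2 → ∃ a : Fin n → A,
      (∀ t, a t ∈ F) ∧ StrictMono a ∧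
      ((f e.1 = a ∘ p ∧ f e.2 = a ∘ q) ∨ (f e.1 = a ∘ q ∧ f e.2 = a ∘ p)) := by
    intro e
    by_cases he : G.Adj e.1 e.2
    · obtain ⟨-, a, ha, h⟩ := f.toHom.map_adj he
      exact ⟨Finset.univ.image a, fun _ => ⟨a, fun t => Finset.mem_image_of_mem _ (Finset.mem_univ t),
        ha, h⟩⟩
    · exact ⟨∅, fun h => absurd h he⟩
  choose F hF using h1
  let F0 : Finset A := (Finset.univ.biUnion F) ∪
    (Finset.univ.biUnion fun i : Fin k => Finset.univ.image (f i))
  let g : A → ℕ := fun x => (F0.filter (· < x)).card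
  have hg : ∀ x ∈ F0, ∀ y ∈ F0, x < y → g x < g y := by
    intro x hx y hy hxy
    apply Finset.card_lt_card
    rw [Finset.ssubset_iff_of_subset]
    · exact ⟨x, Finset.mem_filter.2 ⟨hx, hxy⟩, fun h => lt_irrefl _ (Finset.mem_filter.1 h).2⟩
    · intro z hz
      rw [Finset.mem_filter] at hz ⊢
      exact ⟨hz.1, hz.2.trans hxy⟩
  have hginj : ∀ x ∈ F0, ∀ y ∈ F0, g x = g y → x = y := by
    intro x hx y hy hxy
    rcases lt_trichotomy x y with h | h | h
    · exact absurd hxy (hg x hx y hy h).ne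
    · exact h
    · exact absurd hxy (hg y hy x hx h).ne'
  have hfF : ∀ i t, f i t ∈ F0 := fun i t => Finset.mem_union_right _
    (Finset.mem_biUnion.2 ⟨i, Finset.mem_univ _, Finset.mem_image_of_mem _ (Finset.mem_univ t)⟩)
  have hinj : Function.Injective fun i : Fin k => g ∘ (f i) := by
    intro i i' hii
    apply f.injective
    funext t
    exact hginj _ (hfF i t) _ (hfF i' t) (congrFun hii t)
  refine ⟨⟨⟨fun i => g ∘ (f i), ?_⟩, hinj⟩⟩
  intro i i' hii
  obtain ⟨a, haF, ha, h⟩ := hF (i, i') hii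
  refine ⟨fun h' => hii.ne (hinj h'), g ∘ a, ?_, ?_⟩
  · intro t t' htt
    exact hg _ (Finset.mem_union_left _ (Finset.mem_biUnion.2 ⟨_, Finset.mem_univ _, haF t⟩)) _
      (Finset.mem_union_left _ (Finset.mem_biUnion.2 ⟨_, Finset.mem_univ _, haF t'⟩)) (ha htt)
  · rcases h with ⟨h1, h2⟩ | ⟨h1, h2⟩
    · left
      change f i = a ∘ p at h1
      change f i' = a ∘ q at h2
      exact ⟨by show g ∘ (f i) = _; rw [h1]; rfl, by show g ∘ (f i') = _; rw [h2]; rfl⟩
    · right
      change f i = a ∘ q at h1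
      change f i' = a ∘ p at h2
      exact ⟨by show g ∘ (f i) = _; rw [h1]; rfl, by show g ∘ (f i') = _; rw [h2]; rfl⟩

/-- If `G₂` is contained in a type graph and `G₁` is not, then there is a `G₁`-free graph such that
every colouring of its edges with countably many colours has a monochromatic copy of `G₂`. -/
theorem not_countablyColourable {r n : ℕ} (p q : Fin r → Fin n) {k l : ℕ}
    (G₁ : SimpleGraph (Fin k)) (G₂ : SimpleGraph (Fin l))
    (h2 : G₂.IsContained (typeGraph p q ℕ)) (h1 : ¬ G₁.IsContained (typeGraph p q ℕ)) :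
    ¬ CountablyColourable.{u} G₁ G₂ := by
  classical
  intro hcc
  obtain ⟨A, _, _, hA⟩ := er.{u} n
  obtain ⟨c, hc⟩ := hcc (Fin r → A) (typeGraph p q A) (fun h => h1 (contained_nat p q G₁ h))
  obtain ⟨H, z, hH, hz⟩ := hA (fun s => if h : s.card = n then
    c s((s.orderEmbOfFin h) ∘ p, (s.orderEmbOfFin h) ∘ q) else 0)
  obtain ⟨σ, hσH, hσ⟩ := exists_increasing H hH
  apply hc z
  obtain ⟨f⟩ := h2
  have hinj : Function.Injective fun i : Fin l => σ ∘ (f i) := by
    intro i i' hii
    apply f.injective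
    funext t
    exact hσ.injective (congrFun hii t)
  have key : ∀ a : Fin n → ℕ, StrictMono a → c s(σ ∘ a ∘ p, σ ∘ a ∘ q) = z := by
    intro a ha
    let S : Finset A := Finset.univ.image (σ ∘ a)
    have hS : S.card = n := by
      rw [Finset.card_image_of_injective _ (hσ.comp ha).injective, Finset.card_univ,
        Fintype.card_fin]
    have h3 := hz S (by
      intro x hx
      obtain ⟨t, -, rfl⟩ := Finset.mem_image.1 (Finset.mem_coe.1 hx)
      exact hσH _) hS
    rw [dif_pos hS] at h3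
    have h4 : σ ∘ a = S.orderEmbOfFin hS := Finset.orderEmbOfFin_unique hS
      (fun t => Finset.mem_image_of_mem _ (Finset.mem_univ t)) (hσ.comp ha)
    rw [← h4] at h3
    exact h3
  refine ⟨⟨⟨fun i => σ ∘ (f i), ?_⟩, hinj⟩⟩
  intro i i' hii
  obtain ⟨-, a, ha, h⟩ := f.toHom.map_adj hii
  rcases h with ⟨h3, h4⟩ | ⟨h3, h4⟩
  · change f i = a ∘ p at h3
    change f i' = a ∘ q at h4
    refine ⟨⟨fun h' => hii.ne (hinj h'), σ ∘ a, hσ.comp ha, Or.inl ⟨?_, ?_⟩⟩, ?_⟩
    · show σ ∘ (f i) = _; rw [h3]; rfl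
    · show σ ∘ (f i') = _; rw [h4]; rfl
    · show c s(σ ∘ (f i), σ ∘ (f i')) = z
      rw [h3, h4]
      exact key a ha
  · change f i = a ∘ q at h3
    change f i' = a ∘ p at h4
    refine ⟨⟨fun h' => hii.ne (hinj h'), σ ∘ a, hσ.comp ha, Or.inr ⟨?_, ?_⟩⟩, ?_⟩
    · show σ ∘ (f i) = _; rw [h3]; rfl
    · show σ ∘ (f i') = _; rw [h4]; rfl
    · show c s(σ ∘ (f i), σ ∘ (f i')) = z
      rw [h3, h4, Sym2.eq_swap]
      exact key a ha

end Pool.Agent.Y739.EX
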